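import Pool.Agent.Q204.TI.Proj

/-!
# The greedy construction of orthogonal projections
-/

open Matrix Finset

namespace Pool.Agent.Q204.TI

variable {n d : ℕ}

lemma isPr_sum {ι : Type*} [DecidableEq ι] (s : Finset ι) (P : ι → Mt d)
    (h : ∀ i ∈ s, IsPr (P i)) (ho : ∀ i ∈ s, ∀ j ∈ s, i ≠ j → P i * P j = 0) :
    IsPr (∑ i ∈ s, P i) := by
  refine ⟨?_, ?_⟩
  · rw [conjTranspose_sum]
    exact Finset.sum_congr rfl fun i hi => (h i hi).herm
  · rw [Finset.sum_mul_sum]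
    refine Finset.sum_congr rfl fun i hi => ?_
    rw [Finset.sum_eq_single i, (h i hi).idem]
    · intro j hj hji
      exact ho i hi j hj (Ne.symm hji)
    · exact fun h => absurd hi h

section

variable (lam : Fin n → Fin d → ℝ) (u : Fin n → Fin d → Fin d → ℂ) (lev : Fin n → Fin d → ℕ)

/-- index of a vector -/
def idx (x : Fin n × Fin d) : ℕ := lev x.1 x.2 * n + x.1

/-- vectors of index less than `a` -/
noncomputable def T (a : ℕ) : Finset (Fin n × Fin d) :=
  by classical exact univ.filter fun x => 0 < lam x.1 x.2 ∧ idx lev x < a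

lemma mem_T {a : ℕ} {x : Fin n × Fin d} :
    x ∈ T lam lev a ↔ 0 < lam x.1 x.2 ∧ idx lev x < a := by
  classical
  unfold T
  simp

lemma ex_P (a : ℕ) : ∃ P : Mt d, IsPr P ∧ (∀ x ∈ T lam lev a, P *ᵥ u x.1 x.2 = u x.1 x.2) ∧
      (∀ R : Mt d, (∀ x ∈ T lam lev a, R *ᵥ u x.1 x.2 = u x.1 x.2) → R * P = P) ∧
      P.trace.re ≤ (T lam lev a).card := by
  classical
  exact exists_proj (T lam lev a) fun x => u x.1 x.2

/-- projection on the span of the vectors of index less than `a` -/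
noncomputable def Pj (a : ℕ) : Mt d := (ex_P lam u lev a).choose

lemma Pj_pr (a : ℕ) : IsPr (Pj lam u lev a) := (ex_P lam u lev a).choose_spec.1

lemma Pj_fix (a : ℕ) {x : Fin n × Fin d} (hx : x ∈ T lam lev a) :
    Pj lam u lev a *ᵥ u x.1 x.2 = u x.1 x.2 := (ex_P lam u lev a).choose_spec.2.1 x hx

lemma Pj_min (a : ℕ) {R : Mt d} (hR : ∀ x ∈ T lam lev a, R *ᵥ u x.1 x.2 = u x.1 x.2) :
    R * Pj lam u lev a = Pj lam u lev a := (ex_P lam u lev a).choose_spec.2.2.1 R hR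

lemma Pj_tr (a : ℕ) : (Pj lam u lev a).trace.re ≤ (T lam lev a).card :=
  (ex_P lam u lev a).choose_spec.2.2.2

lemma Pj_le {a b : ℕ} (h : a ≤ b) : Pj lam u lev b * Pj lam u lev a = Pj lam u lev a := by
  refine Pj_min lam u lev a fun x hx => Pj_fix lam u lev b ?_
  rw [mem_T] at hx ⊢
  exact ⟨hx.1, lt_of_lt_of_le hx.2 h⟩

lemma Pj_le' {a b : ℕ} (h : a ≤ b) : Pj lam u lev a * Pj lam u lev b = Pj lam u lev a := by
  have h1 := congrArg conjTranspose (Pj_le lam u lev h)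
  rwa [conjTranspose_mul, (Pj_pr lam u lev a).herm, (Pj_pr lam u lev b).herm] at h1

/-- increments -/
noncomputable def Gj (a : ℕ) : Mt d := Pj lam u lev (a + 1) - Pj lam u lev a

lemma Gj_pr (a : ℕ) : IsPr (Gj lam u lev a) := by
  refine ⟨?_, ?_⟩
  · unfold Gj
    rw [conjTranspose_sub, (Pj_pr lam u lev a).herm, (Pj_pr lam u lev (a + 1)).herm]
  · unfold Gj
    rw [sub_mul, mul_sub, mul_sub, (Pj_pr lam u lev a).idem, (Pj_pr lam u lev (a + 1)).idem,
      Pj_le lam u lev (Nat.le_succ a), Pj_le' lam u lev (Nat.le_succ a)]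
    abel

lemma Gj_orth {a b : ℕ} (h : a ≠ b) : Gj lam u lev a * Gj lam u lev b = 0 := by
  unfold Gj
  rcases lt_or_gt_of_ne h with h | h
  · rw [sub_mul, mul_sub, mul_sub, Pj_le' lam u lev (by omega : a + 1 ≤ b + 1),
      Pj_le' lam u lev (by omega : a + 1 ≤ b), Pj_le' lam u lev (by omega : a ≤ b + 1),
      Pj_le' lam u lev (by omega : a ≤ b)]
    abel
  · rw [sub_mul, mul_sub, mul_sub, Pj_le lam u lev (by omega : b + 1 ≤ a + 1),
      Pj_le lam u lev (by omega : b ≤ a + 1), Pj_le lam u lev (by omega : b + 1 ≤ a),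
      Pj_le lam u lev (by omega : b ≤ a)]
    abel

/-- the projections `F_j` -/
noncomputable def Fj (K : ℕ) (j : Fin n) : Mt d :=
  ∑ k ∈ range K, Gj lam u lev (k * n + j)

lemma code_inj {k k' : ℕ} {j j' : Fin n} (h : k * n + j = k' * n + (j' : ℕ)) : k = k' ∧ j = j' := by
  have hn : 0 < n := by have := j.2; omega
  have h1 : (k * n + j) / n = k := by
    rw [add_comm, Nat.add_mul_div_right _ _ hn, Nat.div_eq_of_lt j.2, zero_add]
  have h2 : (k' * n + j') / n = k' := by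
    rw [add_comm, Nat.add_mul_div_right _ _ hn, Nat.div_eq_of_lt j'.2, zero_add]
  have h3 : k = k' := by rw [← h1, h, h2]
  subst h3
  exact ⟨rfl, Fin.ext (by omega)⟩

lemma Fj_pr (K : ℕ) (j : Fin n) : IsPr (Fj lam u lev K j) := by
  unfold Fj
  refine isPr_sum _ _ (fun k _ => Gj_pr lam u lev _) ?_
  intro k _ k' _ hk
  refine Gj_orth lam u lev fun h => hk (code_inj h).1

lemma Fj_orth (K : ℕ) {i j : Fin n} (h : i ≠ j) : Fj lam u lev K i * Fj lam u lev K j = 0 := by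
  unfold Fj
  rw [Finset.sum_mul_sum]
  refine Finset.sum_eq_zero fun k _ => Finset.sum_eq_zero fun k' _ => ?_
  exact Gj_orth lam u lev fun h' => h (code_inj h').2

lemma Fj_sum_pr (K : ℕ) : IsPr (∑ j, Fj lam u lev K j) :=
  isPr_sum _ _ (fun j _ => Fj_pr lam u lev K j) fun _ _ _ _ h => Fj_orth lam u lev K h

end

lemma IsPr.one_sub {P : Mt d} (hP : IsPr P) : IsPr (1 - P) := by
  refine ⟨?_, ?_⟩
  · rw [conjTranspose_sub, conjTranspose_one, hP.herm]
  · rw [sub_mul, one_mul, mul_sub, mul_one, hP.idem, sub_self, sub_zero]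

/-- The overlap of two vectors. -/
noncomputable def ov (u : Fin n → Fin d → Fin d → ℂ) (x y : Fin n × Fin d) : ℝ :=
  Complex.normSq (ip (u x.1 x.2) (u y.1 y.2))

lemma ov_nonneg (u : Fin n → Fin d → Fin d → ℂ) (x y : Fin n × Fin d) : 0 ≤ ov u x y :=
  Complex.normSq_nonneg _

lemma ov_symm (u : Fin n → Fin d → Fin d → ℂ) (x y : Fin n × Fin d) : ov u x y = ov u y x := by
  unfold ov
  rw [← ip_conj, Complex.star_def, Complex.normSq_conj]

/-- orthonormal bases, with completeness -/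
structure Fam (u : Fin n → Fin d → Fin d → ℂ) : Prop where
  orth : ∀ i p q, ip (u i p) (u i q) = if p = q then 1 else 0
  comp : ∀ i, ∑ p, rk (u i p) = 1

lemma Fam.trace {u : Fin n → Fin d → Fin d → ℂ} (hu : Fam u) (i : Fin n) (M : Mt d) :
    M.trace.re = ∑ p, qf M (u i p) := by
  conv_lhs => rw [← mul_one M, ← hu.comp i, Finset.mul_sum, trace_sum, Complex.re_sum]
  refine Finset.sum_congr rfl fun p _ => ?_
  rw [trace_mul_rk]
  rfl

lemma Fam.ov_same {u : Fin n → Fin d → Fin d → ℂ} (hu : Fam u) {x y : Fin n × Fin d}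
    (h : x.1 = y.1) : ov u x y = if x = y then 1 else 0 := by
  obtain ⟨i, p⟩ := x
  obtain ⟨j, q⟩ := y
  simp only at h
  subst h
  unfold ov
  simp only
  rw [hu.orth]
  by_cases hpq : p = q
  · simp [hpq]
  · simp [hpq]

section main

variable {lam : Fin n → Fin d → ℝ} {u : Fin n → Fin d → Fin d → ℂ} {lev : Fin n → Fin d → ℕ}

/-- sum of the rank one projections -/
noncomputable def Sa (lam : Fin n → Fin d → ℝ) (u : Fin n → Fin d → Fin d → ℂ)
    (lev : Fin n → Fin d → ℕ) (a : ℕ) : Mt d := ∑ x ∈ T lam lev a, rk (u x.1 x.2)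

lemma Sa_herm (a : ℕ) : (Sa lam u lev a)ᴴ = Sa lam u lev a := by
  unfold Sa
  rw [conjTranspose_sum]
  exact Finset.sum_congr rfl fun x _ => rk_herm _

lemma Pj_Sa (a : ℕ) : Pj lam u lev a * Sa lam u lev a = Sa lam u lev a := by
  unfold Sa
  rw [Finset.mul_sum]
  refine Finset.sum_congr rfl fun x hx => ?_
  rw [mul_rk, Pj_fix lam u lev a hx]
  rfl

lemma Sa_Pj (a : ℕ) : Sa lam u lev a * Pj lam u lev a = Sa lam u lev a := by
  have h1 := congrArg conjTranspose (Pj_Sa (lam := lam) (u := u) (lev := lev) a)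
  rwa [conjTranspose_mul, Sa_herm, (Pj_pr lam u lev a).herm] at h1

lemma qf_sq {X : Mt d} (hX : Xᴴ = X) (v : Fin d → ℂ) : 0 ≤ qf (X * X) v := by
  unfold qf
  rw [← mulVec_mulVec, ip_herm hX]
  exact ip_self_nonneg _

lemma qf_Sa (a : ℕ) (y : Fin n × Fin d) :
    qf (Sa lam u lev a) (u y.1 y.2) = ∑ x ∈ T lam lev a, ov u x y := by
  unfold Sa
  rw [qf_sum]
  exact Finset.sum_congr rfl fun x _ => qf_rk _ _

/-- `(S - P)²` -/
noncomputable def Da (lam : Fin n → Fin d → ℝ) (u : Fin n → Fin d → Fin d → ℂ)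
    (lev : Fin n → Fin d → ℕ) (a : ℕ) : Mt d :=
  (Sa lam u lev a - Pj lam u lev a) * (Sa lam u lev a - Pj lam u lev a)

lemma Da_eq (a : ℕ) : Da lam u lev a =
    Sa lam u lev a * Sa lam u lev a - (2 : ℂ) • Sa lam u lev a + Pj lam u lev a := by
  unfold Da
  rw [sub_mul, mul_sub, mul_sub, Pj_Sa, Sa_Pj, (Pj_pr lam u lev a).idem, two_smul]
  abel

lemma qf_Da_nonneg (a : ℕ) (v : Fin d → ℂ) : 0 ≤ qf (Da lam u lev a) v := by
  refine qf_sq ?_ v
  rw [conjTranspose_sub, Sa_herm, (Pj_pr lam u lev a).herm]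

lemma key (a : ℕ) (v : Fin d → ℂ) :
    qf (Pj lam u lev a) v ≤ 2 * qf (Sa lam u lev a) v + 4 * qf (Da lam u lev a) v := by
  set P := Pj lam u lev a with hP
  set S := Sa lam u lev a with hS
  have hPr := Pj_pr lam u lev a
  rw [← hP] at hPr
  have e : (2 : ℂ) • S + (4 : ℂ) • Da lam u lev a - P =
      ((2 : ℂ) • S - (3 / 2 : ℂ) • P) * ((2 : ℂ) • S - (3 / 2 : ℂ) • P) + (3 / 4 : ℂ) • P := by
    rw [Da_eq, ← hP, ← hS, sub_mul, mul_sub, mul_sub]
    simp only [smul_mul_assoc, mul_smul_comm, smul_smul]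
    have h1 : P * S = S := Pj_Sa a
    have h2 : S * P = S := Sa_Pj a
    rw [h1, h2, hPr.idem]
    module
  have h1 : 0 ≤ qf ((2 : ℂ) • S + (4 : ℂ) • Da lam u lev a - P) v := by
    rw [e, qf_add]
    refine add_nonneg (qf_sq ?_ v) ?_
    · rw [conjTranspose_sub, conjTranspose_smul, conjTranspose_smul, hPr.herm, hS, Sa_herm]
      simp
    · have : ((3 / 4 : ℂ)) = ((3 / 4 : ℝ) : ℂ) := by push_cast; ring
      rw [this, qf_smul]
      exact mul_nonneg (by norm_num) (hPr.qf_nonneg v)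
  have h2 : (2 : ℂ) = ((2 : ℝ) : ℂ) := by push_cast; ring
  have h4 : (4 : ℂ) = ((4 : ℝ) : ℂ) := by push_cast; ring
  rw [qf_sub, qf_add, h2, h4, qf_smul, qf_smul] at h1
  linarith

lemma trace_Sa (hu : Fam u) (a : ℕ) : (Sa lam u lev a).trace.re = (T lam lev a).card := by
  unfold Sa
  rw [trace_sum, Complex.re_sum, Finset.card_eq_sum_ones, Nat.cast_sum]
  refine Finset.sum_congr rfl fun x _ => ?_
  rw [trace_rk, hu.orth]
  simp

lemma trace_Sa_sq (a : ℕ) : (Sa lam u lev a * Sa lam u lev a).trace.re =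
    ∑ x ∈ T lam lev a, ∑ y ∈ T lam lev a, ov u x y := by
  have h : Sa lam u lev a * Sa lam u lev a =
      ∑ x ∈ T lam lev a, Sa lam u lev a * rk (u x.1 x.2) := by
    conv_lhs => rw [Sa, Finset.sum_mul]
    rw [← Finset.sum_mul, ← Finset.mul_sum]
    rfl
  rw [h, trace_sum, Complex.re_sum]
  refine Finset.sum_congr rfl fun x _ => ?_
  rw [trace_mul_rk]
  have := qf_Sa (lam := lam) (u := u) (lev := lev) a x
  unfold qf at this
  rw [this]
  exact Finset.sum_congr rfl fun y _ => ov_symm _ _ _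

lemma trace_Da (hu : Fam u) (a : ℕ) : (Da lam u lev a).trace.re ≤
    ∑ x ∈ T lam lev a, ∑ y ∈ T lam lev a with x.1 ≠ y.1, ov u x y := by
  have h1 : (Da lam u lev a).trace.re = (Sa lam u lev a * Sa lam u lev a).trace.re -
      2 * (Sa lam u lev a).trace.re + (Pj lam u lev a).trace.re := by
    rw [Da_eq, trace_add, trace_sub, trace_smul, Complex.add_re, Complex.sub_re, smul_eq_mul]
    have h2 : (2 : ℂ) = ((2 : ℝ) : ℂ) := by push_cast; ring
    rw [h2, Complex.re_ofReal_mul]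
  have h2 := Pj_tr lam u lev a
  rw [h1, trace_Sa hu, trace_Sa_sq]
  have h3 : ∑ x ∈ T lam lev a, ∑ y ∈ T lam lev a, ov u x y =
      (T lam lev a).card + ∑ x ∈ T lam lev a, ∑ y ∈ T lam lev a with x.1 ≠ y.1, ov u x y := by
    rw [Finset.card_eq_sum_ones, Nat.cast_sum, ← Finset.sum_add_distrib]
    refine Finset.sum_congr rfl fun x hx => ?_
    rw [← Finset.sum_filter_add_sum_filter_not (T lam lev a) (fun y => x.1 = y.1)]
    congr 1
    have h4 := Finset.sum_eq_single_of_mem (s := (T lam lev a).filter fun y => x.1 = y.1)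
      (f := fun y => ov u x y) x (Finset.mem_filter.2 ⟨hx, rfl⟩) (by
        intro y hy hyx
        rw [hu.ov_same (Finset.mem_filter.1 hy).2, if_neg (Ne.symm hyx)])
    rw [h4, hu.ov_same rfl]
    simp
  rw [h3]
  linarith

end main

end Pool.Agent.Q204.TI
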