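import Pool.Agent.Q204.TI.Core

/-!
# The loss of the greedy construction
-/

open Matrix Finset

namespace Pool.Agent.Q204.TI

variable {n d : ℕ} {lam : Fin n → Fin d → ℝ} {u : Fin n → Fin d → Fin d → ℂ}
  {lev : Fin n → Fin d → ℕ} {Λ : ℝ} {K : ℕ}

/-- dyadic levels -/
structure Lv (lam : Fin n → Fin d → ℝ) (lev : Fin n → Fin d → ℕ) (Λ : ℝ) (K : ℕ) : Prop where
  pos : 0 < Λ
  nonneg : ∀ x : Fin n × Fin d, 0 ≤ lam x.1 x.2
  up : ∀ x : Fin n × Fin d, 0 < lam x.1 x.2 → lam x.1 x.2 ≤ Λ / 2 ^ lev x.1 x.2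
  lo : ∀ x : Fin n × Fin d, 0 < lam x.1 x.2 → Λ / 2 ^ lev x.1 x.2 ≤ 2 * lam x.1 x.2
  lt : ∀ x : Fin n × Fin d, 0 < lam x.1 x.2 → lev x.1 x.2 < K

lemma geo (hΛ : 0 < Λ) (m K : ℕ) :
    ∑ k ∈ range K, (if m ≤ k then Λ / 2 ^ k else 0) ≤ 2 * (Λ / 2 ^ m) := by
  have h : ∀ K : ℕ, ∑ k ∈ range (m + K), (if m ≤ k then Λ / 2 ^ k else 0) =
      2 * (Λ / 2 ^ m) - 2 * (Λ / 2 ^ (m + K)) := by
    intro K
    induction K with
    | zero =>
      rw [Finset.sum_eq_zero]
      · simp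
      · intro k hk
        rw [if_neg]
        have := Finset.mem_range.1 hk
        omega
    | succ K ih =>
      rw [← Nat.add_assoc, Finset.sum_range_succ, ih, if_pos (by omega)]
      rw [pow_succ]
      field_simp
      ring
  calc ∑ k ∈ range K, (if m ≤ k then Λ / 2 ^ k else 0)
      ≤ ∑ k ∈ range (m + K), (if m ≤ k then Λ / 2 ^ k else 0) := by
        refine Finset.sum_le_sum_of_subset_of_nonneg ?_ ?_
        · intro k hk
          simp only [Finset.mem_range] at hk ⊢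
          omega
        · intro k _ _
          split_ifs
          · positivity
          · exact le_rfl
    _ ≤ 2 * (Λ / 2 ^ m) := by
        rw [h]
        have : 0 < Λ / 2 ^ (m + K) := by positivity
        linarith

/-- weights -/
noncomputable def wt (lam : Fin n → Fin d → ℝ) (u : Fin n → Fin d → Fin d → ℂ)
    (x y : Fin n × Fin d) : ℝ := min (lam x.1 x.2) (lam y.1 y.2) * ov u x y

/-- total weight -/
noncomputable def Wt (lam : Fin n → Fin d → ℝ) (u : Fin n → Fin d → Fin d → ℂ) : ℝ :=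
  ∑ x : Fin n × Fin d, ∑ y : Fin n × Fin d with x.1 ≠ y.1, wt lam u x y

lemma wt_nonneg (h : Lv lam lev Λ K) (x y : Fin n × Fin d) : 0 ≤ wt lam u x y :=
  mul_nonneg (le_min (h.nonneg x) (h.nonneg y)) (ov_nonneg u x y)

/-- blocks -/
noncomputable def Bl (lam : Fin n → Fin d → ℝ) (lev : Fin n → Fin d → ℕ) (k : ℕ) (j : Fin n) :
    Finset (Fin d) := by classical exact univ.filter fun p => 0 < lam j p ∧ lev j p = k

lemma mem_Bl {k : ℕ} {j : Fin n} {p : Fin d} :
    p ∈ Bl lam lev k j ↔ 0 < lam j p ∧ lev j p = k := by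
  classical
  unfold Bl
  simp

lemma sum_blocks (h : Lv lam lev Λ K) (f : Fin n × Fin d → ℝ) :
    ∑ k ∈ range K, ∑ j, ∑ p ∈ Bl lam lev k j, f (j, p) =
      ∑ x : Fin n × Fin d with 0 < lam x.1 x.2, f x := by
  classical
  rw [Finset.sum_comm, Finset.sum_filter, Fintype.sum_prod_type]
  refine Finset.sum_congr rfl fun j _ => ?_
  rw [← Finset.sum_filter]
  rw [← Finset.sum_fiberwise_of_maps_to (s := univ.filter fun p => 0 < lam j p) (t := range K)
    (g := fun p => lev j p)]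
  · refine Finset.sum_congr rfl fun k _ => ?_
    refine Finset.sum_congr ?_ fun _ _ => rfl
    ext p
    rw [mem_Bl]
    simp
  · intro p hp
    exact Finset.mem_range.2 (h.lt (j, p) (Finset.mem_filter.1 hp).2)

lemma step1 (hu : Fam u) (h : Lv lam lev Λ K) (x : Fin n × Fin d) (hx : 0 < lam x.1 x.2) :
    1 - qf (Fj lam u lev K x.1) (u x.1 x.2) ≤
      qf (Pj lam u lev (lev x.1 x.2 * n + x.1)) (u x.1 x.2) := by
  have h1 : qf (Gj lam u lev (lev x.1 x.2 * n + x.1)) (u x.1 x.2) ≤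
      qf (Fj lam u lev K x.1) (u x.1 x.2) := by
    unfold Fj
    rw [qf_sum]
    exact Finset.single_le_sum (f := fun k => qf (Gj lam u lev (k * n + x.1)) (u x.1 x.2))
      (fun k _ => (Gj_pr lam u lev _).qf_nonneg _) (Finset.mem_range.2 (h.lt x hx))
  have h2 : qf (Pj lam u lev (lev x.1 x.2 * n + x.1 + 1)) (u x.1 x.2) = 1 := by
    unfold qf
    have h3 : x ∈ T lam lev (lev x.1 x.2 * n + x.1 + 1) := by
      rw [mem_T]
      exact ⟨hx, Nat.lt_succ_self _⟩
    rw [Pj_fix lam u lev _ h3, hu.orth]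
    simp
  unfold Gj at h1
  rw [qf_sub, h2] at h1
  linarith

lemma lev_le {k : ℕ} {j : Fin n} {y : Fin n × Fin d} (hy : y ∈ T lam lev (k * n + j)) :
    lev y.1 y.2 ≤ k := by
  rw [mem_T] at hy
  have h1 := hy.2
  unfold idx at h1
  have h2 := j.2
  by_contra hc
  push Not at hc
  have h3 : (k + 1) * n ≤ lev y.1 y.2 * n := Nat.mul_le_mul_right n hc
  have h4 : (k + 1) * n = k * n + n := by ring
  omega

lemma blk (hu : Fam u) (h : Lv lam lev Λ K) (k : ℕ) (j : Fin n) :
    ∑ p ∈ Bl lam lev k j, lam j p * qf (Pj lam u lev (k * n + j)) (u j p) ≤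
      4 * (∑ p ∈ Bl lam lev k j, ∑ y : Fin n × Fin d with j ≠ y.1, wt lam u (j, p) y) +
      4 * (Λ / 2 ^ k * ∑ x : Fin n × Fin d, ∑ y : Fin n × Fin d with x.1 ≠ y.1,
        if (0 < lam x.1 x.2 ∧ 0 < lam y.1 y.2) ∧ (lev x.1 x.2 ≤ k ∧ lev y.1 y.2 ≤ k) then
          ov u x y else 0) := by
  classical
  have ht : 0 < Λ / 2 ^ k := by have := h.pos; positivity
  have e1 : ∑ p ∈ Bl lam lev k j, lam j p * qf (Pj lam u lev (k * n + j)) (u j p) ≤
      Λ / 2 ^ k * ∑ p ∈ Bl lam lev k j, qf (Pj lam u lev (k * n + j)) (u j p) := by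
    rw [Finset.mul_sum]
    refine Finset.sum_le_sum fun p hp => ?_
    rw [mem_Bl] at hp
    refine mul_le_mul_of_nonneg_right ?_ ((Pj_pr lam u lev _).qf_nonneg _)
    have := h.up (j, p) hp.1
    simp only at this
    rwa [hp.2] at this
  have e2 : ∑ p ∈ Bl lam lev k j, qf (Pj lam u lev (k * n + j)) (u j p) ≤
      2 * ∑ p ∈ Bl lam lev k j, ∑ y ∈ T lam lev (k * n + j), ov u y (j, p) +
      4 * ∑ x ∈ T lam lev (k * n + j), ∑ y ∈ T lam lev (k * n + j) with x.1 ≠ y.1, ov u x y := by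
    have f1 : ∑ p ∈ Bl lam lev k j, qf (Pj lam u lev (k * n + j)) (u j p) ≤
        ∑ p ∈ Bl lam lev k j, (2 * qf (Sa lam u lev (k * n + j)) (u j p) +
          4 * qf (Da lam u lev (k * n + j)) (u j p)) :=
      Finset.sum_le_sum fun p _ => key _ _
    rw [Finset.sum_add_distrib, ← Finset.mul_sum, ← Finset.mul_sum] at f1
    have f2 : ∑ p ∈ Bl lam lev k j, qf (Sa lam u lev (k * n + j)) (u j p) =
        ∑ p ∈ Bl lam lev k j, ∑ y ∈ T lam lev (k * n + j), ov u y (j, p) :=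
      Finset.sum_congr rfl fun p _ => qf_Sa _ (j, p)
    have f3 : ∑ p ∈ Bl lam lev k j, qf (Da lam u lev (k * n + j)) (u j p) ≤
        (Da lam u lev (k * n + j)).trace.re := by
      rw [hu.trace j]
      exact Finset.sum_le_sum_of_subset_of_nonneg (Finset.subset_univ _)
        fun p _ _ => qf_Da_nonneg _ _
    have f4 := trace_Da (lam := lam) (lev := lev) hu (k * n + j)
    rw [f2] at f1
    linarith
  have e3 : ∀ p ∈ Bl lam lev k j, ∀ y ∈ T lam lev (k * n + j), Λ / 2 ^ k * ov u y (j, p) ≤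
      if j ≠ y.1 then 2 * wt lam u (j, p) y else 0 := by
    intro p hp y hy
    have hy' := hy
    rw [mem_Bl] at hp
    rw [mem_T] at hy
    by_cases hj : j = y.1
    · have hne : y ≠ (j, p) := by
        rintro rfl
        have h1 := hy.2
        unfold idx at h1
        simp only [hp.2] at h1
        omega
      rw [hu.ov_same (by simpa using hj.symm), if_neg hne, if_neg (by simpa using hj)]
      simp
    · rw [if_pos hj]
      unfold wt
      rw [ov_symm u y (j, p), ← mul_assoc]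
      refine mul_le_mul_of_nonneg_right ?_ (ov_nonneg _ _ _)
      have h1 := h.lo (j, p) hp.1
      have h2 := h.lo y hy.1
      simp only [hp.2] at h1
      have h3 : Λ / 2 ^ k ≤ Λ / 2 ^ lev y.1 y.2 := by
        refine div_le_div_of_nonneg_left h.pos.le (by positivity) ?_
        exact pow_le_pow_right₀ (by norm_num) (lev_le hy')
      rcases le_total (lam j p) (lam y.1 y.2) with h4 | h4
      · simp only [min_eq_left h4]; linarith
      · simp only [min_eq_right h4]; linarith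
  have e4 : Λ / 2 ^ k * ∑ p ∈ Bl lam lev k j, ∑ y ∈ T lam lev (k * n + j), ov u y (j, p) ≤
      2 * ∑ p ∈ Bl lam lev k j, ∑ y : Fin n × Fin d with j ≠ y.1, wt lam u (j, p) y := by
    rw [Finset.mul_sum, Finset.mul_sum]
    refine Finset.sum_le_sum fun p hp => ?_
    rw [Finset.mul_sum, Finset.mul_sum, Finset.sum_filter]
    calc ∑ y ∈ T lam lev (k * n + j), Λ / 2 ^ k * ov u y (j, p)
        ≤ ∑ y ∈ T lam lev (k * n + j), (if j ≠ y.1 then 2 * wt lam u (j, p) y else 0) :=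
          Finset.sum_le_sum fun y hy => e3 p hp y hy
      _ ≤ _ := Finset.sum_le_sum_of_subset_of_nonneg (Finset.subset_univ _) fun y _ _ => by
          split_ifs
          · exact mul_nonneg (by norm_num) (wt_nonneg h _ _)
          · exact le_rfl
  have e5 : ∑ x ∈ T lam lev (k * n + j), ∑ y ∈ T lam lev (k * n + j) with x.1 ≠ y.1, ov u x y ≤
      ∑ x : Fin n × Fin d, ∑ y : Fin n × Fin d with x.1 ≠ y.1,
        if (0 < lam x.1 x.2 ∧ 0 < lam y.1 y.2) ∧ (lev x.1 x.2 ≤ k ∧ lev y.1 y.2 ≤ k) then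
          ov u x y else 0 := by
    calc _ ≤ ∑ x ∈ T lam lev (k * n + j), ∑ y : Fin n × Fin d with x.1 ≠ y.1,
        (if (0 < lam x.1 x.2 ∧ 0 < lam y.1 y.2) ∧ (lev x.1 x.2 ≤ k ∧ lev y.1 y.2 ≤ k) then
          ov u x y else 0) := by
          refine Finset.sum_le_sum fun x hx => ?_
          calc ∑ y ∈ T lam lev (k * n + j) with x.1 ≠ y.1, ov u x y
              = ∑ y ∈ T lam lev (k * n + j) with x.1 ≠ y.1,
                (if (0 < lam x.1 x.2 ∧ 0 < lam y.1 y.2) ∧
                  (lev x.1 x.2 ≤ k ∧ lev y.1 y.2 ≤ k) then ov u x y else 0) := by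
                refine Finset.sum_congr rfl fun y hy => ?_
                have hy1 := (Finset.mem_filter.1 hy).1
                rw [if_pos]
                exact ⟨⟨((mem_T lam lev).1 hx).1, ((mem_T lam lev).1 hy1).1⟩,
                  lev_le hx, lev_le hy1⟩
            _ ≤ _ := by
                refine Finset.sum_le_sum_of_subset_of_nonneg ?_ fun y _ _ => ?_
                · exact Finset.filter_subset_filter _ (Finset.subset_univ _)
                · split_ifs
                  · exact ov_nonneg _ _ _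
                  · exact le_rfl
      _ ≤ _ := by
          refine Finset.sum_le_sum_of_subset_of_nonneg (Finset.subset_univ _) fun x _ _ => ?_
          refine Finset.sum_nonneg fun y _ => ?_
          split_ifs
          · exact ov_nonneg _ _ _
          · exact le_rfl
  have e6 := mul_le_mul_of_nonneg_left e2 ht.le
  have e7 := mul_le_mul_of_nonneg_left e5 ht.le
  nlinarith [e1, e4, e6, e7]

theorem loss (hu : Fam u) (h : Lv lam lev Λ K) :
    ∑ x : Fin n × Fin d, lam x.1 x.2 * (1 - qf (Fj lam u lev K x.1) (u x.1 x.2)) ≤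
      (4 + 16 * n) * Wt lam u := by
  classical
  have s1 : ∑ x : Fin n × Fin d, lam x.1 x.2 * (1 - qf (Fj lam u lev K x.1) (u x.1 x.2)) ≤
      ∑ x : Fin n × Fin d with 0 < lam x.1 x.2,
        lam x.1 x.2 * qf (Pj lam u lev (lev x.1 x.2 * n + x.1)) (u x.1 x.2) := by
    rw [Finset.sum_filter]
    refine Finset.sum_le_sum fun x _ => ?_
    split_ifs with hx
    · exact mul_le_mul_of_nonneg_left (step1 hu h x hx) hx.le
    · have : lam x.1 x.2 = 0 := le_antisymm (not_lt.1 hx) (h.nonneg x)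
      rw [this, zero_mul]
  rw [← sum_blocks h] at s1
  have s2 : ∑ k ∈ range K, ∑ j, ∑ p ∈ Bl lam lev k j,
      lam (j, p).1 (j, p).2 * qf (Pj lam u lev (lev (j, p).1 (j, p).2 * n + ((j, p) : _ × _).1))
        (u (j, p).1 (j, p).2) ≤
      ∑ k ∈ range K, ∑ j, (4 * (∑ p ∈ Bl lam lev k j,
        ∑ y : Fin n × Fin d with j ≠ y.1, wt lam u (j, p) y) +
      4 * (Λ / 2 ^ k * ∑ x : Fin n × Fin d, ∑ y : Fin n × Fin d with x.1 ≠ y.1,
        if (0 < lam x.1 x.2 ∧ 0 < lam y.1 y.2) ∧ (lev x.1 x.2 ≤ k ∧ lev y.1 y.2 ≤ k) then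
          ov u x y else 0)) := by
    refine Finset.sum_le_sum fun k _ => Finset.sum_le_sum fun j _ => ?_
    refine le_trans (le_of_eq ?_) (blk hu h k j)
    refine Finset.sum_congr rfl fun p hp => ?_
    rw [mem_Bl] at hp
    simp only [hp.2]
  have s3 : ∑ k ∈ range K, ∑ j, (∑ p ∈ Bl lam lev k j,
        ∑ y : Fin n × Fin d with j ≠ y.1, wt lam u (j, p) y) ≤ Wt lam u := by
    have := sum_blocks h fun x => ∑ y : Fin n × Fin d with x.1 ≠ y.1, wt lam u x y
    simp only at this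
    rw [this]
    unfold Wt
    refine Finset.sum_le_sum_of_subset_of_nonneg (Finset.filter_subset _ _) fun x _ _ => ?_
    exact Finset.sum_nonneg fun y _ => wt_nonneg h _ _
  have s4 : ∑ k ∈ range K, (Λ / 2 ^ k * ∑ x : Fin n × Fin d, ∑ y : Fin n × Fin d with x.1 ≠ y.1,
        if (0 < lam x.1 x.2 ∧ 0 < lam y.1 y.2) ∧ (lev x.1 x.2 ≤ k ∧ lev y.1 y.2 ≤ k) then
          ov u x y else 0) ≤ 4 * Wt lam u := by
    have r1 : ∀ k, (Λ / 2 ^ k * ∑ x : Fin n × Fin d, ∑ y : Fin n × Fin d with x.1 ≠ y.1,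
        if (0 < lam x.1 x.2 ∧ 0 < lam y.1 y.2) ∧ (lev x.1 x.2 ≤ k ∧ lev y.1 y.2 ≤ k) then
          ov u x y else 0) = ∑ x : Fin n × Fin d, ∑ y : Fin n × Fin d with x.1 ≠ y.1,
        ov u x y * (if (0 < lam x.1 x.2 ∧ 0 < lam y.1 y.2) ∧
          (lev x.1 x.2 ≤ k ∧ lev y.1 y.2 ≤ k) then Λ / 2 ^ k else 0) := by
      intro k
      rw [Finset.mul_sum]
      refine Finset.sum_congr rfl fun x _ => ?_
      rw [Finset.mul_sum]
      refine Finset.sum_congr rfl fun y _ => ?_
      split_ifs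
      · ring
      · ring
    rw [Finset.sum_congr rfl fun k _ => r1 k, Finset.sum_comm]
    unfold Wt
    rw [Finset.mul_sum]
    refine Finset.sum_le_sum fun x _ => ?_
    rw [Finset.sum_comm, Finset.mul_sum]
    refine Finset.sum_le_sum fun y _ => ?_
    rw [← Finset.mul_sum]
    unfold wt
    rw [← mul_assoc, mul_comm (ov u x y)]
    refine mul_le_mul_of_nonneg_right ?_ (ov_nonneg _ _ _)
    by_cases hxy : 0 < lam x.1 x.2 ∧ 0 < lam y.1 y.2
    · have g1 : ∑ k ∈ range K, (if (0 < lam x.1 x.2 ∧ 0 < lam y.1 y.2) ∧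
          (lev x.1 x.2 ≤ k ∧ lev y.1 y.2 ≤ k) then Λ / 2 ^ k else 0) =
          ∑ k ∈ range K, (if max (lev x.1 x.2) (lev y.1 y.2) ≤ k then Λ / 2 ^ k else 0) := by
        refine Finset.sum_congr rfl fun k _ => ?_
        congr 1
        simp [hxy]
      rw [g1]
      refine (geo h.pos _ K).trans ?_
      have h1 := h.lo x hxy.1
      have h2 := h.lo y hxy.2
      have h3 : Λ / 2 ^ (max (lev x.1 x.2) (lev y.1 y.2)) ≤ Λ / 2 ^ lev x.1 x.2 :=
        div_le_div_of_nonneg_left h.pos.le (by positivity)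
          (pow_le_pow_right₀ (by norm_num) (le_max_left _ _))
      have h4 : Λ / 2 ^ (max (lev x.1 x.2) (lev y.1 y.2)) ≤ Λ / 2 ^ lev y.1 y.2 :=
        div_le_div_of_nonneg_left h.pos.le (by positivity)
          (pow_le_pow_right₀ (by norm_num) (le_max_right _ _))
      rcases le_total (lam x.1 x.2) (lam y.1 y.2) with h5 | h5
      · rw [min_eq_left h5]; linarith
      · rw [min_eq_right h5]; linarith
    · rw [Finset.sum_eq_zero]
      · exact mul_nonneg (by norm_num) (le_min (h.nonneg x) (h.nonneg y))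
      · intro k _
        rw [if_neg]
        tauto
  have s5 : ∑ k ∈ range K, ∑ j : Fin n, (4 * (∑ p ∈ Bl lam lev k j,
        ∑ y : Fin n × Fin d with j ≠ y.1, wt lam u (j, p) y) +
      4 * (Λ / 2 ^ k * ∑ x : Fin n × Fin d, ∑ y : Fin n × Fin d with x.1 ≠ y.1,
        if (0 < lam x.1 x.2 ∧ 0 < lam y.1 y.2) ∧ (lev x.1 x.2 ≤ k ∧ lev y.1 y.2 ≤ k) then
          ov u x y else 0)) = 4 * (∑ k ∈ range K, ∑ j, (∑ p ∈ Bl lam lev k j,
        ∑ y : Fin n × Fin d with j ≠ y.1, wt lam u (j, p) y)) +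
        4 * (n * ∑ k ∈ range K, (Λ / 2 ^ k * ∑ x : Fin n × Fin d,
        ∑ y : Fin n × Fin d with x.1 ≠ y.1,
        if (0 < lam x.1 x.2 ∧ 0 < lam y.1 y.2) ∧ (lev x.1 x.2 ≤ k ∧ lev y.1 y.2 ≤ k) then
          ov u x y else 0)) := by
    rw [Finset.mul_sum, Finset.mul_sum, Finset.mul_sum, ← Finset.sum_add_distrib]
    refine Finset.sum_congr rfl fun k _ => ?_
    rw [Finset.sum_add_distrib, ← Finset.mul_sum, Finset.sum_const, Finset.card_univ,
      Fintype.card_fin, nsmul_eq_mul]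
    ring
  have hn : (0 : ℝ) ≤ n := Nat.cast_nonneg n
  have s6 := mul_le_mul_of_nonneg_left s4 hn
  rw [s5] at s2
  nlinarith [s1, s2, s3, s6]

end Pool.Agent.Q204.TI
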