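import Pool.Agent.Q204.TI.Loss

/-!
# The multivariate trace inequality
-/

open Matrix Finset
open scoped MatrixOrder ComplexOrder

namespace Pool.Agent.Q204.TI

variable {n d : ℕ}

/-- columns of a matrix -/
def cl (V : Mt d) (p : Fin d) : Fin d → ℂ := fun i => V i p

lemma ip_cl (V : Mt d) (p q : Fin d) : ip (cl V p) (cl V q) = (Vᴴ * V) p q := by
  unfold ip cl
  rw [mul_apply]
  rfl

lemma sum_rk_cl (V : Mt d) (c : Fin d → ℂ) :
    ∑ p, c p • rk (cl V p) = V * diagonal c * Vᴴ := by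
  ext i j
  rw [Matrix.sum_apply, mul_apply]
  refine Finset.sum_congr rfl fun p _ => ?_
  rw [mul_diagonal, conjTranspose_apply]
  simp only [rk, cl, vecMulVec, Matrix.smul_apply, of_apply, Pi.star_apply, smul_eq_mul]
  ring

lemma exists_eig {A : Mt d} (hA : A.IsHermitian) : ∃ (lam : Fin d → ℝ) (V : Mt d),
    Vᴴ * V = 1 ∧ V * Vᴴ = 1 ∧ A = V * diagonal (fun p => (lam p : ℂ)) * Vᴴ ∧
      (A.PosSemidef → ∀ p, 0 ≤ lam p) := by
  refine ⟨hA.eigenvalues, (hA.eigenvectorUnitary : Mt d), ?_, ?_, ?_, fun h p => ?_⟩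
  · have := (Matrix.mem_unitaryGroup_iff'.1 hA.eigenvectorUnitary.2)
    simpa [star_eq_conjTranspose] using this
  · have := (Matrix.mem_unitaryGroup_iff.1 hA.eigenvectorUnitary.2)
    simpa [star_eq_conjTranspose] using this
  · have h := hA.spectral_theorem
    conv_lhs => rw [h]
    rfl
  · exact h.eigenvalues_nonneg p

lemma orth_of {V : Mt d} (h : Vᴴ * V = 1) (p q : Fin d) :
    ip (cl V p) (cl V q) = if p = q then 1 else 0 := by
  rw [ip_cl, h, one_apply]

lemma comp_of {V : Mt d} (h : V * Vᴴ = 1) : ∑ p, rk (cl V p) = 1 := by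
  have := sum_rk_cl V fun _ => 1
  simp only [one_smul] at this
  rw [this, diagonal_one, mul_one, h]

/-- spectral data of a matrix -/
structure Sp (A : Mt d) (lam : Fin d → ℝ) (u : Fin d → Fin d → ℂ) : Prop where
  orth : ∀ p q, ip (u p) (u q) = if p = q then 1 else 0
  comp : ∑ p, rk (u p) = 1
  eq : A = ∑ p, (lam p : ℂ) • rk (u p)

lemma exists_sp {A : Mt d} (hA : A.IsHermitian) : ∃ (lam : Fin d → ℝ) (u : Fin d → Fin d → ℂ),
    Sp A lam u ∧ (A.PosSemidef → ∀ p, 0 ≤ lam p) := by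
  obtain ⟨lam, V, h1, h2, h3, h4⟩ := exists_eig hA
  refine ⟨lam, cl V, ⟨orth_of h1, comp_of h2, ?_⟩, h4⟩
  rw [sum_rk_cl, ← h3]

lemma Sp.trace_mul {A : Mt d} {lam : Fin d → ℝ} {u : Fin d → Fin d → ℂ} (h : Sp A lam u)
    (F : Mt d) : (A * F).trace.re = ∑ p, lam p * qf F (u p) := by
  rw [trace_mul_comm, h.eq, Finset.mul_sum, trace_sum, Complex.re_sum]
  refine Finset.sum_congr rfl fun p _ => ?_
  rw [mul_smul_comm, trace_smul, trace_mul_rk, smul_eq_mul, Complex.re_ofReal_mul]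
  rfl

lemma Sp.trace {A : Mt d} {lam : Fin d → ℝ} {u : Fin d → Fin d → ℂ} (h : Sp A lam u) :
    A.trace.re = ∑ p, lam p := by
  have h1 := h.trace_mul 1
  rw [mul_one] at h1
  rw [h1]
  refine Finset.sum_congr rfl fun p _ => ?_
  unfold qf
  rw [one_mulVec, h.orth]
  simp

lemma Sp.tr {A : Mt d} {lam : Fin d → ℝ} {u : Fin d → Fin d → ℂ} (h : Sp A lam u) (M : Mt d) :
    M.trace.re = ∑ p, qf M (u p) := by
  conv_lhs => rw [← mul_one M, ← h.comp, Finset.mul_sum, trace_sum, Complex.re_sum]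
  refine Finset.sum_congr rfl fun p _ => ?_
  rw [trace_mul_rk]
  rfl

lemma Sp.parseval {A : Mt d} {lam : Fin d → ℝ} {u : Fin d → Fin d → ℂ} (h : Sp A lam u)
    (x : Fin d → ℂ) : ∑ p, Complex.normSq (ip (u p) x) = (ip x x).re := by
  have h1 : qf (∑ p, rk (u p)) x = ∑ p, Complex.normSq (ip (u p) x) := by
    rw [qf_sum]
    exact Finset.sum_congr rfl fun p _ => qf_rk _ _
  rw [← h1, h.comp]
  unfold qf
  rw [one_mulVec]

lemma Sp.apply {A : Mt d} {lam : Fin d → ℝ} {u : Fin d → Fin d → ℂ} (h : Sp A lam u)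
    (p : Fin d) : A *ᵥ u p = (lam p : ℂ) • u p := by
  have h1 : A *ᵥ u p = ∑ q, ((lam q : ℂ) • rk (u q)) *ᵥ u p := by
    rw [h.eq]
    exact Matrix.sum_mulVec _ _ _
  rw [h1, Finset.sum_eq_single p]
  · rw [smul_mulVec, rk_mulVec, h.orth, if_pos rfl, one_smul]
  · intro q _ hq
    rw [smul_mulVec, rk_mulVec, h.orth, if_neg hq, zero_smul, smul_zero]
  · intro hp
    exact absurd (Finset.mem_univ p) hp

lemma IsPr.qf_eq {P : Mt d} (hP : IsPr P) (v : Fin d → ℂ) :
    qf P v = (ip (P *ᵥ v) (P *ᵥ v)).re := by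
  unfold qf
  conv_lhs => rw [← hP.idem, ← mulVec_mulVec, ip_herm hP.herm]

/-- the upper bound by the trace of the square root -/
lemma upper (A : Fin n → Mt d) (F : Fin n → Mt d) (hA : ∀ j, (A j)ᴴ = A j)
    (hF : ∀ j, IsPr (F j)) (hS : IsPr (∑ j, F j)) {S : Mt d} (hS0 : S.PosSemidef)
    (hSS : S * S = ∑ j, A j ^ 2) : ∑ j, (A j * F j).trace.re ≤ S.trace.re := by
  obtain ⟨s, w, hw, hs⟩ := exists_sp hS0.isHermitian
  have hs0 := hs hS0
  have e1 : ∀ j, (A j * F j).trace.re = ∑ r, (ip (A j *ᵥ w r) (F j *ᵥ w r)).re := by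
    intro j
    rw [hw.tr]
    refine Finset.sum_congr rfl fun r _ => ?_
    unfold qf
    rw [← mulVec_mulVec, ip_herm (hA j)]
  rw [Finset.sum_congr rfl fun j _ => e1 j, Finset.sum_comm, hw.trace]
  refine Finset.sum_le_sum fun r _ => ?_
  have e2 : ∑ j, (ip (A j *ᵥ w r) (A j *ᵥ w r)).re = s r ^ 2 := by
    have h1 : qf (∑ j, A j ^ 2) (w r) = ∑ j, (ip (A j *ᵥ w r) (A j *ᵥ w r)).re := by
      rw [qf_sum]
      refine Finset.sum_congr rfl fun j _ => ?_
      unfold qf
      rw [sq, ← mulVec_mulVec, ip_herm (hA j)]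
    rw [← h1, ← hSS]
    unfold qf
    rw [← mulVec_mulVec, hw.apply, mulVec_smul, hw.apply]
    unfold ip
    rw [dotProduct_smul, dotProduct_smul]
    have := hw.orth r r
    unfold ip at this
    rw [this]
    simp [sq]
  have e3 : ∑ j, (ip (F j *ᵥ w r) (F j *ᵥ w r)).re ≤ 1 := by
    have h1 : qf (∑ j, F j) (w r) = ∑ j, (ip (F j *ᵥ w r) (F j *ᵥ w r)).re := by
      rw [qf_sum]
      exact Finset.sum_congr rfl fun j _ => (hF j).qf_eq _
    have h2 := hS.one_sub.qf_nonneg (w r)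
    rw [qf_sub, h1] at h2
    have h3 : qf (1 : Mt d) (w r) = 1 := by
      unfold qf
      rw [one_mulVec, hw.orth]
      simp
    linarith
  have e4 : 2 * s r * ∑ j, (ip (A j *ᵥ w r) (F j *ᵥ w r)).re ≤
      ∑ j, (ip (A j *ᵥ w r) (A j *ᵥ w r)).re +
        s r ^ 2 * ∑ j, (ip (F j *ᵥ w r) (F j *ᵥ w r)).re := by
    rw [Finset.mul_sum, Finset.mul_sum, ← Finset.sum_add_distrib]
    refine Finset.sum_le_sum fun j _ => ?_
    set a := A j *ᵥ w r
    set b := F j *ᵥ w r
    have h1 := ip_self_nonneg (a - (s r : ℂ) • b)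
    have h2 : ip (a - (s r : ℂ) • b) (a - (s r : ℂ) • b) =
        ip a a - (s r : ℂ) * ip a b - (s r : ℂ) * ip b a + (s r : ℂ) ^ 2 * ip b b := by
      unfold ip
      simp only [star_sub, star_smul, sub_dotProduct, dotProduct_sub, smul_dotProduct,
        dotProduct_smul, smul_eq_mul, Complex.star_def, Complex.conj_ofReal]
      ring
    have h3 : (ip b a).re = (ip a b).re := by
      rw [← ip_conj a b, Complex.star_def, Complex.conj_re]
    rw [h2] at h1
    have h4 : ((s r : ℂ) ^ 2) = ((s r ^ 2 : ℝ) : ℂ) := by push_cast; ring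
    rw [h4] at h1
    simp only [Complex.add_re, Complex.sub_re, Complex.re_ofReal_mul] at h1
    rw [h3] at h1
    linarith
  rcases (hs0 r).eq_or_lt with h0 | h0
  · have h1 : ∀ j, A j *ᵥ w r = 0 := by
      intro j
      by_contra hne
      have h2 := ip_self_pos hne
      have h3 : (ip (A j *ᵥ w r) (A j *ᵥ w r)).re ≤
          ∑ j, (ip (A j *ᵥ w r) (A j *ᵥ w r)).re :=
        Finset.single_le_sum (f := fun j => (ip (A j *ᵥ w r) (A j *ᵥ w r)).re)
          (fun j _ => ip_self_nonneg _) (Finset.mem_univ j)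
      rw [e2, ← h0] at h3
      simp at h3
      linarith
    rw [← h0]
    refine le_of_eq (Finset.sum_eq_zero fun j _ => ?_)
    rw [h1 j]
    simp [ip]
  · rw [e2] at e4
    have e5 : s r ^ 2 * ∑ j, (ip (F j *ᵥ w r) (F j *ᵥ w r)).re ≤ s r ^ 2 * 1 :=
      mul_le_mul_of_nonneg_left e3 (sq_nonneg _)
    have e6 : s r * ∑ j, (ip (A j *ᵥ w r) (F j *ᵥ w r)).re ≤ s r * s r := by nlinarith
    exact le_of_mul_le_mul_left e6 h0

/-- The trace norm `Tr √(X* X)`. -/
noncomputable def traceNorm (X : Mt d) : ℝ := (CFC.sqrt (Xᴴ * X)).trace.re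

lemma exists_sign {X : Mt d} (hX : X.IsHermitian) :
    ∃ P : Mt d, IsPr P ∧ traceNorm X = (X * ((2 : ℂ) • P - 1)).trace.re := by
  obtain ⟨x, V, h1, h2, h3, -⟩ := exists_eig hX
  have hmul : ∀ a b : Fin d → ℂ, (V * diagonal a * Vᴴ) * (V * diagonal b * Vᴴ) =
      V * diagonal (fun p => a p * b p) * Vᴴ := by
    intro a b
    have : (V * diagonal a * Vᴴ) * (V * diagonal b * Vᴴ) =
        V * diagonal a * (Vᴴ * V) * diagonal b * Vᴴ := by
      simp only [Matrix.mul_assoc]
    rw [this, h1, Matrix.mul_one, Matrix.mul_assoc V, diagonal_mul_diagonal]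
  have hsub : ∀ a b : Fin d → ℂ, (V * diagonal a * Vᴴ) - (V * diagonal b * Vᴴ) =
      V * diagonal (fun p => a p - b p) * Vᴴ := by
    intro a b
    rw [← diagonal_sub, Matrix.mul_sub, Matrix.sub_mul]
  have hone : (1 : Mt d) = V * diagonal (fun _ => (1 : ℂ)) * Vᴴ := by
    rw [diagonal_one, Matrix.mul_one, h2]
  refine ⟨V * diagonal (fun p => if 0 < x p then (1 : ℂ) else 0) * Vᴴ, ⟨?_, ?_⟩, ?_⟩
  · rw [conjTranspose_mul, conjTranspose_mul, conjTranspose_conjTranspose,
      diagonal_conjTranspose, Matrix.mul_assoc]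
    congr 2
    congr 1
    funext p
    simp only [Pi.star_apply]
    split_ifs <;> simp
  · rw [hmul]
    congr 2
    congr 1
    funext p
    split_ifs <;> simp
  · have hsq : CFC.sqrt (Xᴴ * X) = V * diagonal (fun p => ((|x p| : ℝ) : ℂ)) * Vᴴ := by
      refine CFC.sqrt_unique ?_ ?_
      · have hXX : Xᴴ = X := hX
        rw [hmul, hXX]
        conv_rhs => rw [h3]
        rw [hmul]
        congr 2
        congr 1
        funext p
        rw [← Complex.ofReal_mul, ← Complex.ofReal_mul, abs_mul_abs_self]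
      · refine Matrix.PosSemidef.nonneg ?_
        refine Matrix.PosSemidef.mul_mul_conjTranspose_same ?_ V
        refine Matrix.posSemidef_diagonal_iff.2 fun p => ?_
        exact_mod_cast abs_nonneg (x p)
    unfold traceNorm
    rw [hsq]
    congr 2
    have e1 : (2 : ℂ) • (V * diagonal (fun p => if 0 < x p then (1 : ℂ) else 0) * Vᴴ) =
        V * diagonal (fun p => if 0 < x p then (2 : ℂ) else 0) * Vᴴ := by
      rw [← Matrix.smul_mul, ← Matrix.mul_smul, ← diagonal_smul]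
      congr 2
      congr 1
      funext p
      simp only [Pi.smul_apply, smul_eq_mul]
      split_ifs <;> simp
    rw [e1]
    conv_rhs => rw [hone, hsub, h3, hmul]
    congr 2
    congr 1
    funext p
    by_cases hp : 0 < x p
    · simp only [if_pos hp, abs_of_pos hp]
      ring
    · simp only [if_neg hp, abs_of_nonpos (not_lt.1 hp)]
      push_cast
      ring

/-- the overlap bound -/
lemma overlap {A B : Mt d} {lam mu : Fin d → ℝ} {u v : Fin d → Fin d → ℂ} (hA : Sp A lam u)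
    (hB : Sp B mu v) (hl : ∀ p, 0 ≤ lam p) (hm : ∀ p, 0 ≤ mu p) {P : Mt d} (hP : IsPr P) :
    ∑ p, ∑ q, min (lam p) (mu q) * Complex.normSq (ip (u p) (v q)) ≤
      2 * ((A * (1 - P)).trace.re + (B * P).trace.re) := by
  have hQ := hP.one_sub
  have e1 : ∀ p q, min (lam p) (mu q) * Complex.normSq (ip (u p) (v q)) ≤
      2 * (mu q * Complex.normSq (ip (u p) (P *ᵥ v q))) +
      2 * (lam p * Complex.normSq (ip (v q) ((1 - P) *ᵥ u p))) := by
    intro p q
    have h1 : ip (u p) (v q) = ip (u p) (P *ᵥ v q) + ip ((1 - P) *ᵥ u p) (v q) := by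
      rw [← ip_herm hQ.herm, ← ip_add_right, ← add_mulVec, add_sub_cancel, one_mulVec]
    have h2 : Complex.normSq (ip (v q) ((1 - P) *ᵥ u p)) =
        Complex.normSq (ip ((1 - P) *ᵥ u p) (v q)) := by
      rw [← ip_conj, Complex.star_def, Complex.normSq_conj]
    rw [h1, h2]
    set a := ip (u p) (P *ᵥ v q)
    set b := ip ((1 - P) *ᵥ u p) (v q)
    have h3 : Complex.normSq (a + b) ≤ 2 * Complex.normSq a + 2 * Complex.normSq b := by
      simp only [Complex.normSq_apply, Complex.add_re, Complex.add_im]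
      nlinarith [sq_nonneg (a.re - b.re), sq_nonneg (a.im - b.im)]
    have h4 : 0 ≤ min (lam p) (mu q) := le_min (hl p) (hm q)
    have h5 := mul_le_mul_of_nonneg_left h3 h4
    have h6 := mul_le_mul_of_nonneg_right (min_le_left (lam p) (mu q)) (Complex.normSq_nonneg b)
    have h7 := mul_le_mul_of_nonneg_right (min_le_right (lam p) (mu q)) (Complex.normSq_nonneg a)
    nlinarith
  have e2 : ∑ p, ∑ q, (2 * (mu q * Complex.normSq (ip (u p) (P *ᵥ v q))) +
      2 * (lam p * Complex.normSq (ip (v q) ((1 - P) *ᵥ u p)))) =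
      2 * ((A * (1 - P)).trace.re + (B * P).trace.re) := by
    simp_rw [Finset.sum_add_distrib]
    rw [Finset.sum_comm]
    simp_rw [← Finset.mul_sum]
    have g1 : ∀ q, ∑ p, Complex.normSq (ip (u p) (P *ᵥ v q)) = qf P (v q) := by
      intro q
      rw [hA.parseval, hP.qf_eq]
    have g2 : ∀ p, ∑ q, Complex.normSq (ip (v q) ((1 - P) *ᵥ u p)) = qf (1 - P) (u p) := by
      intro p
      rw [hB.parseval, hQ.qf_eq]
    simp_rw [g1, g2]
    rw [hA.trace_mul, hB.trace_mul]
    ring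
  rw [← e2]
  exact Finset.sum_le_sum fun p _ => Finset.sum_le_sum fun q _ => e1 p q

lemma overlap' {A B : Mt d} {lam mu : Fin d → ℝ} {u v : Fin d → Fin d → ℂ} (hA : Sp A lam u)
    (hB : Sp B mu v) (hl : ∀ p, 0 ≤ lam p) (hm : ∀ p, 0 ≤ mu p) (hX : (A - B).IsHermitian) :
    ∑ p, ∑ q, min (lam p) (mu q) * Complex.normSq (ip (u p) (v q)) ≤
      (A + B).trace.re - traceNorm (A - B) := by
  obtain ⟨P, hP, h1⟩ := exists_sign hX
  refine (overlap hA hB hl hm hP).trans (le_of_eq ?_)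
  rw [h1]
  have e : (A - B) * ((2 : ℂ) • P - 1) = (2 : ℂ) • (A * P) - (2 : ℂ) • (B * P) - A + B := by
    rw [sub_mul, mul_sub, mul_sub, mul_smul_comm, mul_smul_comm, mul_one, mul_one]
    abel
  rw [e, mul_sub, mul_one]
  simp only [trace_add, trace_sub, trace_smul, smul_eq_mul, Complex.add_re, Complex.sub_re]
  have h2 : (2 : ℂ) = ((2 : ℝ) : ℂ) := by push_cast; ring
  rw [h2, Complex.re_ofReal_mul, Complex.re_ofReal_mul]
  ring

lemma exists_lv (lam : Fin n → Fin d → ℝ) (h : ∀ i p, 0 ≤ lam i p) :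
    ∃ (lev : Fin n → Fin d → ℕ) (Λ : ℝ) (K : ℕ), Lv lam lev Λ K := by
  classical
  set Λ : ℝ := 1 + ∑ x : Fin n × Fin d, lam x.1 x.2 with hΛ
  have hS : 0 ≤ ∑ x : Fin n × Fin d, lam x.1 x.2 := Finset.sum_nonneg fun x _ => h _ _
  have hΛ0 : 0 < Λ := by linarith
  have hle : ∀ x : Fin n × Fin d, lam x.1 x.2 ≤ Λ := by
    intro x
    have := Finset.single_le_sum (f := fun x : Fin n × Fin d => lam x.1 x.2)
      (fun x _ => h _ _) (Finset.mem_univ x)
    linarith
  have hex : ∀ i p, ∃ m : ℕ, 0 < lam i p →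
      lam i p ≤ Λ / 2 ^ m ∧ Λ / 2 ^ m ≤ 2 * lam i p := by
    intro i p
    by_cases hp : 0 < lam i p
    · obtain ⟨m, h1, h2⟩ := exists_nat_pow_near_of_lt_one (x := lam i p / Λ) (y := (1 / 2 : ℝ))
        (by positivity) ((div_le_one hΛ0).2 (hle (i, p))) (by norm_num) (by norm_num)
      refine ⟨m, fun _ => ⟨?_, ?_⟩⟩
      · rw [div_le_iff₀ hΛ0] at h2
        rw [div_eq_mul_inv, mul_comm]
        simpa using h2
      · rw [lt_div_iff₀ hΛ0] at h1
        have h3 : Λ / 2 ^ m = 2 * ((1 / 2 : ℝ) ^ (m + 1) * Λ) := by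
          rw [pow_succ, one_div, inv_pow]
          field_simp
        rw [h3]
        linarith
    · exact ⟨0, fun h => absurd h hp⟩
  choose lev hlev using hex
  refine ⟨lev, Λ, 1 + ∑ x : Fin n × Fin d, lev x.1 x.2, hΛ0, fun x => h _ _,
    fun x hx => (hlev _ _ hx).1, fun x hx => (hlev _ _ hx).2, fun x _ => ?_⟩
  have := Finset.single_le_sum (f := fun x : Fin n × Fin d => lev x.1 x.2)
    (fun x _ => Nat.zero_le _) (Finset.mem_univ x)
  omega

theorem main (A : Fin n → Mt d) (hA : ∀ j, (A j).PosSemidef) :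
    (32 * n + 8 : ℝ) * ∑ j, ∑ k, (if j < k then traceNorm (A j - A k) - (A j + A k).trace.re
      else 0) ≤ (CFC.sqrt (∑ j, A j ^ 2)).trace.re - ∑ j, (A j).trace.re := by
  classical
  have hex := fun j => exists_sp (hA j).isHermitian
  choose lam u hsp hnn using hex
  have hl : ∀ i p, 0 ≤ lam i p := fun i => hnn i (hA i)
  obtain ⟨lev, Λ, K, hlv⟩ := exists_lv lam hl
  have hu : Fam u := ⟨fun i => (hsp i).orth, fun i => (hsp i).comp⟩
  have h1 := loss hu hlv
  set F := Fj lam u lev K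
  -- the sum of squares
  have hsum : (∑ j, A j ^ 2).PosSemidef := Matrix.posSemidef_sum _ fun j _ => (hA j).pow 2
  have h2 := upper A F (fun j => (hA j).isHermitian) (Fj_pr lam u lev K) (Fj_sum_pr lam u lev K)
    (S := CFC.sqrt (∑ j, A j ^ 2)) (CFC.sqrt_nonneg _).posSemidef
    (CFC.sqrt_mul_sqrt_self _ hsum.nonneg)
  have h3 : ∑ x : Fin n × Fin d, lam x.1 x.2 * (1 - qf (F x.1) (u x.1 x.2)) =
      ∑ j, (A j).trace.re - ∑ j, (A j * F j).trace.re := by
    rw [Fintype.sum_prod_type, ← Finset.sum_sub_distrib]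
    refine Finset.sum_congr rfl fun j _ => ?_
    rw [(hsp j).trace, (hsp j).trace_mul, ← Finset.sum_sub_distrib]
    refine Finset.sum_congr rfl fun p _ => ?_
    ring
  have h4 : Wt lam u ≤ ∑ i, ∑ j, (if i ≠ j then (A i + A j).trace.re - traceNorm (A i - A j)
      else 0) := by
    unfold Wt
    rw [Fintype.sum_prod_type]
    refine Finset.sum_le_sum fun i _ => ?_
    simp_rw [Finset.sum_filter, Fintype.sum_prod_type]
    rw [Finset.sum_comm]
    refine Finset.sum_le_sum fun j _ => ?_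
    split_ifs with hij
    · refine le_trans (le_of_eq ?_) (overlap' (hsp i) (hsp j) (hl i) (hl j)
        ((hA i).isHermitian.sub (hA j).isHermitian))
      rfl
    · exact le_of_eq (Finset.sum_eq_zero fun p _ => by simp)
  have h5 : ∑ i, ∑ j, (if i ≠ j then (A i + A j).trace.re - traceNorm (A i - A j) else 0) =
      -2 * ∑ j, ∑ k, (if j < k then traceNorm (A j - A k) - (A j + A k).trace.re else 0) := by
    have hsym : ∀ i j, traceNorm (A i - A j) = traceNorm (A j - A i) := by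
      intro i j
      unfold traceNorm
      congr 3
      rw [← neg_sub (A j) (A i), conjTranspose_neg, neg_mul_neg]
    have e1 : ∀ i j, (if i ≠ j then (A i + A j).trace.re - traceNorm (A i - A j) else 0) =
        -(if i < j then traceNorm (A i - A j) - (A i + A j).trace.re else 0) -
        (if j < i then traceNorm (A j - A i) - (A j + A i).trace.re else 0) := by
      intro i j
      rcases lt_trichotomy i j with h | h | h
      · rw [if_pos h.ne, if_pos h, if_neg (not_lt.2 h.le)]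
        ring
      · subst h
        simp
      · rw [if_pos h.ne', if_pos h, if_neg (not_lt.2 h.le), hsym i j, add_comm (A i)]
        ring
    simp_rw [e1, Finset.sum_sub_distrib, Finset.sum_neg_distrib]
    rw [Finset.sum_comm (f := fun i j => if j < i then
      traceNorm (A j - A i) - (A j + A i).trace.re else 0)]
    ring
  have hn : (0 : ℝ) ≤ n := Nat.cast_nonneg n
  rw [h5] at h4
  have h6 := mul_le_mul_of_nonneg_left h4 (by positivity : (0 : ℝ) ≤ 4 + 16 * n)
  rw [h3] at h1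
  nlinarith [h1, h2, h6]

end Pool.Agent.Q204.TI
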