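import Mathlib

/-!
# Projections onto spans of vectors, quadratic forms
-/

open Matrix

namespace Pool.Agent.Q204.TI

abbrev Mt (d : ℕ) := Matrix (Fin d) (Fin d) ℂ

/-- scalar product of vectors -/
def ip {d : ℕ} (v w : Fin d → ℂ) : ℂ := star v ⬝ᵥ w

/-- real quadratic form -/
def qf {d : ℕ} (P : Mt d) (v : Fin d → ℂ) : ℝ := (ip v (P *ᵥ v)).re

/-- rank one matrix -/
def rk {d : ℕ} (v : Fin d → ℂ) : Mt d := vecMulVec v (star v)

variable {d : ℕ}

lemma ip_conj (v w : Fin d → ℂ) : star (ip v w) = ip w v := by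
  unfold ip
  exact (star_dotProduct w v).symm

lemma ip_herm {P : Mt d} (hP : Pᴴ = P) (v w : Fin d → ℂ) : ip v (P *ᵥ w) = ip (P *ᵥ v) w := by
  unfold ip
  rw [star_mulVec, hP, dotProduct_mulVec]

lemma ip_add_right (v w x : Fin d → ℂ) : ip v (w + x) = ip v w + ip v x := by
  unfold ip; rw [dotProduct_add]

lemma ip_sub_right (v w x : Fin d → ℂ) : ip v (w - x) = ip v w - ip v x := by
  unfold ip; rw [dotProduct_sub]

lemma ip_sub_left (v w x : Fin d → ℂ) : ip (v - w) x = ip v x - ip w x := by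
  unfold ip; rw [star_sub, sub_dotProduct]

lemma ip_self_re (v : Fin d → ℂ) : (ip v v).re = ∑ i, Complex.normSq (v i) := by
  unfold ip dotProduct
  rw [Complex.re_sum]
  refine Finset.sum_congr rfl fun i _ => ?_
  rw [Pi.star_apply, Complex.star_def, ← Complex.normSq_eq_conj_mul_self, Complex.ofReal_re]

lemma ip_self_nonneg (v : Fin d → ℂ) : 0 ≤ (ip v v).re := by
  rw [ip_self_re]
  exact Finset.sum_nonneg fun i _ => Complex.normSq_nonneg _

lemma ip_self_real (v : Fin d → ℂ) : ip v v = ((ip v v).re : ℂ) := by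
  have h := ip_conj v v
  exact (Complex.conj_eq_iff_re.1 h).symm

lemma ip_self_pos {v : Fin d → ℂ} (hv : v ≠ 0) : 0 < (ip v v).re := by
  rw [ip_self_re]
  obtain ⟨i, hi⟩ := Function.ne_iff.1 hv
  refine Finset.sum_pos' (fun i _ => Complex.normSq_nonneg _) ⟨i, Finset.mem_univ _, ?_⟩
  exact Complex.normSq_pos.2 hi

lemma rk_mulVec (v w : Fin d → ℂ) : rk v *ᵥ w = ip v w • v := by
  unfold rk ip
  rw [vecMulVec_mulVec]
  ext i
  simp [mul_comm]

lemma mul_rk (M : Mt d) (v : Fin d → ℂ) : M * rk v = vecMulVec (M *ᵥ v) (star v) := by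
  unfold rk
  rw [mul_vecMulVec]

lemma rk_mul {M : Mt d} (hM : Mᴴ = M) (v : Fin d → ℂ) :
    rk v * M = vecMulVec v (star (M *ᵥ v)) := by
  unfold rk
  rw [vecMulVec_mul, star_mulVec, hM]

lemma rk_herm (v : Fin d → ℂ) : (rk v)ᴴ = rk v := by
  unfold rk
  rw [conjTranspose_vecMulVec, star_star]

lemma trace_mul_rk (M : Mt d) (v : Fin d → ℂ) : (M * rk v).trace = ip v (M *ᵥ v) := by
  rw [mul_rk, trace_vecMulVec, dotProduct_comm]
  rfl

lemma trace_rk (v : Fin d → ℂ) : (rk v).trace = ip v v := by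
  unfold rk
  rw [trace_vecMulVec, dotProduct_comm]
  rfl

lemma qf_add (P Q : Mt d) (v : Fin d → ℂ) : qf (P + Q) v = qf P v + qf Q v := by
  unfold qf
  rw [add_mulVec, ip_add_right, Complex.add_re]

lemma qf_sub (P Q : Mt d) (v : Fin d → ℂ) : qf (P - Q) v = qf P v - qf Q v := by
  unfold qf
  rw [sub_mulVec, ip_sub_right, Complex.sub_re]

lemma qf_sum {ι : Type*} (s : Finset ι) (P : ι → Mt d) (v : Fin d → ℂ) :
    qf (∑ i ∈ s, P i) v = ∑ i ∈ s, qf (P i) v := by
  classical
  induction s using Finset.induction_on with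
  | empty => simp [qf, ip]
  | insert a s ha ih => rw [Finset.sum_insert ha, Finset.sum_insert ha, qf_add, ih]

lemma qf_smul (c : ℝ) (P : Mt d) (v : Fin d → ℂ) : qf ((c : ℂ) • P) v = c * qf P v := by
  unfold qf ip
  rw [smul_mulVec, dotProduct_smul, smul_eq_mul, Complex.re_ofReal_mul]

lemma qf_rk (v w : Fin d → ℂ) : qf (rk v) w = Complex.normSq (ip v w) := by
  unfold qf
  rw [rk_mulVec]
  have h : ip w (ip v w • v) = ip v w * ip w v := by
    unfold ip
    rw [dotProduct_smul, smul_eq_mul]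
  rw [h, ← ip_conj v w, Complex.star_def, Complex.mul_conj, Complex.ofReal_re]

/-- Hermitian idempotents. -/
structure IsPr (P : Mt d) : Prop where
  herm : Pᴴ = P
  idem : P * P = P

lemma IsPr.qf_nonneg {P : Mt d} (hP : IsPr P) (v : Fin d → ℂ) : 0 ≤ qf P v := by
  unfold qf
  have : ip v (P *ᵥ v) = ip (P *ᵥ v) (P *ᵥ v) := by
    conv_lhs => rw [← hP.idem, ← mulVec_mulVec, ip_herm hP.herm]
  rw [this]
  exact ip_self_nonneg _

lemma IsPr.zero : IsPr (0 : Mt d) := ⟨by simp, by simp⟩

lemma exists_proj {ι : Type*} [DecidableEq ι] (s : Finset ι) (v : ι → Fin d → ℂ) :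
    ∃ P : Mt d, IsPr P ∧ (∀ i ∈ s, P *ᵥ v i = v i) ∧
      (∀ R : Mt d, (∀ i ∈ s, R *ᵥ v i = v i) → R * P = P) ∧ P.trace.re ≤ s.card := by
  induction s using Finset.induction_on with
  | empty => exact ⟨0, IsPr.zero, by simp, by simp, by simp⟩
  | insert a s ha ih =>
    obtain ⟨P, hP, h1, h2, h3⟩ := ih
    by_cases hw : v a - P *ᵥ v a = 0
    · refine ⟨P, hP, ?_, fun R hR => h2 R fun i hi => hR i (Finset.mem_insert_of_mem hi), ?_⟩
      · intro i hi
        rcases Finset.mem_insert.1 hi with rfl | hi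
        · exact (sub_eq_zero.1 hw).symm
        · exact h1 i hi
      · rw [Finset.card_insert_of_notMem ha]
        push_cast
        linarith
    · set w := v a - P *ᵥ v a with hwdef
      have hN := ip_self_pos hw
      set N : ℝ := (ip w w).re with hNdef
      have hNc : (N : ℂ) ≠ 0 := by exact_mod_cast hN.ne'
      have hww : ip w w = (N : ℂ) := ip_self_real w
      have hPw : P *ᵥ w = 0 := by
        rw [hwdef, mulVec_sub, mulVec_mulVec, hP.idem, sub_self]
      have hPr : P * rk w = 0 := by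
        rw [mul_rk, hPw]
        ext i j
        simp [vecMulVec]
      have hrP : rk w * P = 0 := by
        rw [rk_mul hP.herm, hPw]
        ext i j
        simp [vecMulVec]
      have hrr : rk w * rk w = (N : ℂ) • rk w := by
        rw [mul_rk, rk_mulVec, hww]
        ext i j
        simp [vecMulVec, rk, mul_assoc]
      have hx : ∀ x : Fin d → ℂ, ip w (P *ᵥ x) = 0 := by
        intro x
        rw [ip_herm hP.herm, hPw]
        simp [ip]
      refine ⟨P + ((N : ℂ)⁻¹) • rk w, ⟨?_, ?_⟩, ?_, ?_, ?_⟩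
      · rw [conjTranspose_add, conjTranspose_smul, rk_herm, hP.herm]
        simp
      · rw [add_mul, mul_add, mul_add, hP.idem]
        simp only [mul_smul_comm, smul_mul_assoc, hPr, hrP, hrr, smul_zero, add_zero, zero_add,
          smul_smul]
        rw [inv_mul_cancel₀ hNc, mul_one]
      · intro i hi
        rw [add_mulVec, smul_mulVec, rk_mulVec]
        rcases Finset.mem_insert.1 hi with rfl | hi
        · have : ip w (v i) = (N : ℂ) := by
            have e : v i = w + P *ᵥ v i := by rw [hwdef]; abel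
            conv_lhs => rw [e]
            rw [ip_add_right, hx, add_zero, hww]
          rw [this, smul_smul, inv_mul_cancel₀ hNc, one_smul, hwdef]
          abel
        · have : ip w (v i) = 0 := by
            rw [← h1 i hi, hx]
          rw [this, zero_smul, smul_zero, add_zero, h1 i hi]
      · intro R hR
        have e1 := h2 R fun i hi => hR i (Finset.mem_insert_of_mem hi)
        have e2 : R *ᵥ w = w := by
          rw [hwdef, mulVec_sub, hR a (Finset.mem_insert_self a s), mulVec_mulVec, e1]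
        rw [mul_add, e1, mul_smul_comm, mul_rk, e2]
        rfl
      · rw [trace_add, trace_smul, trace_rk, hww, smul_eq_mul, inv_mul_cancel₀ hNc,
          Finset.card_insert_of_notMem ha, Complex.add_re, Complex.one_re]
        push_cast
        linarith

end Pool.Agent.Q204.TI
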